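import Mathlib
import Pool.Agent.Helper429.QV.Pd
import Pool.Agent.Helper429.QV.Mon

set_option autoImplicit false

namespace Pool.Agent.Results.MP_5bbf46_al.FreeSemigroup

open Pool.Agent.Helper429

/-- A quasi-identity `u₁ = 1 ∧ ... ∧ uₖ = 1 → c = 1` in the letters `x₀, x₁, ...`: the finite list
of the words `uᵢ` of the premises, and the word `c` of the conclusion. -/
structure QuasiIdentity : Type where
  /-- the words of the premises -/
  prem : List (FreeGroup ℕ)
  /-- the word of the conclusion -/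
  concl : FreeGroup ℕ

/-- The quasi-identity `q` holds in the group `G`: whatever values in `G` the letters take, if all
premises have value `1` then the conclusion has value `1`. -/
def QuasiIdentity.Holds (q : QuasiIdentity) (G : Type) [Group G] : Prop :=
  ∀ φ : FreeGroup ℕ →* G, (∀ u ∈ q.prem, φ u = 1) → φ q.concl = 1

/-- A class of groups. -/
abbrev GroupClass : Type 1 := (G : Type) → [Group G] → Prop

/-- A quasivariety of groups: a class of groups defined by a set of quasi-identities. -/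
def IsQuasivariety (X : GroupClass) : Prop :=
  ∃ Q : Set QuasiIdentity, ∀ (G : Type) [Group G], X G ↔ ∀ q ∈ Q, q.Holds G

/-- The class satisfies a non-trivial identity `w = 1`. -/
def SatisfiesIdentity (X : GroupClass) : Prop :=
  ∃ w : FreeGroup ℕ, w ≠ 1 ∧ ∀ (G : Type) [Group G], X G → ∀ φ : FreeGroup ℕ →* G, φ w = 1

/-- The product of two classes of groups. -/
def product (X Y : GroupClass) : GroupClass := fun G _ =>
  ∃ (N : Subgroup G) (_ : N.Normal), X N ∧ Y (G ⧸ N)

/-- The class of all trivial groups. -/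
def trivialClass : GroupClass := fun G _ => ∀ g : G, g = 1

/-- The quasivarieties of groups that satisfy a non-trivial identity. -/
def QVar : Type 1 := {X : GroupClass // IsQuasivariety X ∧ SatisfiesIdentity X}

lemma isQuasivariety_iff {X : GroupClass} : IsQuasivariety X ↔ QV.Closed X := by
  constructor
  · rintro ⟨Q, hQ⟩
    apply QV.IsQuasivariety.closed
    refine ⟨{q | ∃ p ∈ Q, q = ⟨p.prem, p.concl⟩}, fun G _ => (hQ G).trans ?_⟩
    constructor
    · rintro h _ ⟨p, hp, rfl⟩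
      exact h p hp
    · intro h p hp
      exact h _ ⟨p, hp, rfl⟩
  · intro h
    obtain ⟨Q, hQ⟩ := h.isQuasivariety
    refine ⟨{q | ∃ p ∈ Q, q = ⟨p.prem, p.concl⟩}, fun G _ => (hQ G).trans ?_⟩
    constructor
    · rintro h _ ⟨p, hp, rfl⟩
      exact h p hp
    · intro h p hp
      exact h _ ⟨p, hp, rfl⟩

lemma product_mem {X Y : GroupClass} (hX : IsQuasivariety X ∧ SatisfiesIdentity X)
    (hY : IsQuasivariety Y ∧ SatisfiesIdentity Y) :
    IsQuasivariety (product X Y) ∧ SatisfiesIdentity (product X Y) := by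
  have h1 := isQuasivariety_iff.1 hX.1
  have h2 := isQuasivariety_iff.1 hY.1
  refine ⟨isQuasivariety_iff.2 (QV.closed_mulCls h1 h2), ?_⟩
  obtain ⟨u, hu, hu1⟩ := hX.2
  obtain ⟨v, hv, hv1⟩ := hY.2
  exact ⟨QV.sbs v u, QV.sbs_ne hu hv, QV.sat_mul h1 h2 hu1 hv1⟩

lemma trivial_mem : IsQuasivariety trivialClass ∧ SatisfiesIdentity trivialClass := by
  refine ⟨isQuasivariety_iff.2 QV.closed_oneCls, FreeGroup.of 0, FreeGroup.of_ne_one 0, ?_⟩
  intro G _ hG φ
  exact hG _

/-- Multiplication of quasivarieties; the class of the trivial groups is the identity element. -/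
instance : Monoid QVar where
  mul X Y := ⟨product X.1 Y.1, product_mem X.2 Y.2⟩
  one := ⟨trivialClass, trivial_mem⟩
  mul_assoc X Y Z := by
    apply Subtype.ext
    funext G i
    exact propext (QV.mulCls_assoc (isQuasivariety_iff.1 X.2.1) (isQuasivariety_iff.1 Y.2.1)
      (isQuasivariety_iff.1 Z.2.1))
  one_mul X := by
    apply Subtype.ext
    funext G i
    exact propext (QV.one_mulCls (isQuasivariety_iff.1 X.2.1))
  mul_one X := by
    apply Subtype.ext
    funext G i
    exact propext (QV.mulCls_one (isQuasivariety_iff.1 X.2.1))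

lemma mul_iff (X Y : QVar) (G : Type) [Group G] :
    (X * Y).1 G ↔ ∃ (N : Subgroup G) (_ : N.Normal), X.1 N ∧ Y.1 (G ⧸ N) := Iff.rfl

lemma one_iff (G : Type) [Group G] : (1 : QVar).1 G ↔ ∀ g : G, g = 1 := Iff.rfl

/-- the length of a shortest non-trivial identity -/
noncomputable def len (X : QVar) : ℕ :=
  sInf {n | ∃ l : List (ℕ × Bool), l.length = n ∧ FreeGroup.mk l ≠ 1 ∧
    QV.Sat X.1 (FreeGroup.mk l)}

lemma len_spec (X : QVar) : ∃ l : List (ℕ × Bool), l.length = len X ∧ FreeGroup.mk l ≠ 1 ∧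
    QV.Sat X.1 (FreeGroup.mk l) := by
  classical
  obtain ⟨w, hw, hs⟩ := X.2.2
  have hne : {n | ∃ l : List (ℕ × Bool), l.length = n ∧ FreeGroup.mk l ≠ 1 ∧
    QV.Sat X.1 (FreeGroup.mk l)}.Nonempty :=
    ⟨w.toWord.length, w.toWord, rfl, by rwa [FreeGroup.mk_toWord], by
      rw [FreeGroup.mk_toWord]; exact hs⟩
  exact Nat.sInf_mem hne

lemma len_lt (X Y : QVar) (hY : Y ≠ 1) : len X < len (X * Y) := by
  have hXc := isQuasivariety_iff.1 X.2.1
  have hYc := isQuasivariety_iff.1 Y.2.1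
  have h1 : ∃ (B : Type) (_ : Group B), Y.1 B ∧ ¬ QV.oneCls B := by
    by_contra hcon
    push Not at hcon
    apply hY
    apply Subtype.ext
    funext G i
    exact propext ⟨fun h => hcon G i h, fun h => hYc.triv h⟩
  obtain ⟨B, iB, hB, hB'⟩ := h1
  obtain ⟨l, hl, hl1, hl2⟩ := len_spec (X * Y)
  obtain ⟨l₀, h2, h3, h4⟩ := QV.shorter hXc hYc (QV.closed_mulCls hXc hYc) QV.closed_oneCls
    (fun G _ h => (QV.mulCls_one (QV.closed_mulCls hXc hYc)).2 h) hB hB' l hl1 hl2
  have h5 : len X ≤ l₀.length := Nat.sInf_le ⟨l₀, rfl, h3, h4⟩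
  omega

lemma equidivisible (a b c d : QVar) (h : a * b = c * d) :
    (∃ z, a = c * z ∧ d = z * b) ∨ (∃ z, c = a * z ∧ b = z * d) := by
  have ha := isQuasivariety_iff.1 a.2.1
  have hb := isQuasivariety_iff.1 b.2.1
  have hc := isQuasivariety_iff.1 c.2.1
  have hd := isQuasivariety_iff.1 d.2.1
  obtain ⟨wa, hwa, hsa⟩ := a.2.2
  obtain ⟨wb, hwb, hsb⟩ := b.2.2
  obtain ⟨wc, hwc, hsc⟩ := c.2.2
  obtain ⟨wd, hwd, hsd⟩ := d.2.2
  have hEq : ∀ (G : Type) [Group G], QV.mulCls a.1 b.1 G ↔ QV.mulCls c.1 d.1 G := by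
    intro G _
    have : (a * b).1 G ↔ (c * d).1 G := by rw [h]
    exact this
  rcases QV.comparable ha hb hc hd hwa hwc hsa hsc hEq with hle | hle
  · obtain ⟨Z, hZ, hZd, h1, h2⟩ := QV.equidiv ha hb hc hd hwb hwc hsb hsc hEq hle
    refine Or.inl ⟨⟨Z, isQuasivariety_iff.2 hZ, wd, hwd, fun G _ hG => hsd G (hZd G hG)⟩, ?_, ?_⟩
    · apply Subtype.ext
      funext G i
      exact propext (h1 G)
    · apply Subtype.ext
      funext G i
      exact propext (h2 G)
  · obtain ⟨Z, hZ, hZb, h1, h2⟩ := QV.equidiv hc hd ha hb hwd hwa hsd hsa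
      (fun G _ => (hEq G).symm) hle
    refine Or.inr ⟨⟨Z, isQuasivariety_iff.2 hZ, wb, hwb, fun G _ hG => hsb G (hZb G hG)⟩, ?_, ?_⟩
    · apply Subtype.ext
      funext G i
      exact propext (h1 G)
    · apply Subtype.ext
      funext G i
      exact propext (h2 G)

/-- The semigroup of the quasivarieties of groups satisfying a non-trivial identity is free. -/
theorem result :
    ∃ A : Set QVar, (1 : QVar) ∉ A ∧
      (∀ X : QVar, X ≠ 1 → ∃! l : List QVar, l ≠ [] ∧ (∀ Y ∈ l, Y ∈ A) ∧ l.prod = X) ∧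
      ∃ e : FreeMonoid A ≃* QVar, ∀ a : A, e (FreeMonoid.of a) = (a : QVar) := by
  have key := QV.exists_unique_fact (S := QVar) len len_lt equidivisible
  refine ⟨QV.irr QVar, fun h => h.1 rfl, fun X hX => ?_, QV.free_of_unique _ key⟩
  obtain ⟨l, ⟨h1, h2⟩, h3⟩ := key X
  refine ⟨l, ⟨?_, h1, h2⟩, fun l' h' => h3 l' h'.2⟩
  rintro rfl
  exact hX (by rw [← h2, List.prod_nil])

end Pool.Agent.Results.MP_5bbf46_al.FreeSemigroup
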